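import Mathlib
import Pool.Agent.H85.Shell2

namespace Pool.Agent.Results.MP_6b8987_gt.Shell

open Set Metric MeasureTheory Filter
open scoped Pointwise ENNReal ContDiff

/-- the standard symplectic form of `ℝ⁴` -/
def om (u v : Fin 4 → ℝ) : ℝ := u 0 * v 1 - u 1 * v 0 + u 2 * v 3 - u 3 * v 2

/-- `φ` restricts to a symplectic embedding of the open set `U ⊆ ℝ⁴` into `X ⊆ ℝ⁴` -/
def Emb (U X : Set (Fin 4 → ℝ)) (φ : (Fin 4 → ℝ) → Fin 4 → ℝ) : Prop :=
  ContDiffOn ℝ ∞ φ U ∧ InjOn φ U ∧ MapsTo φ U X ∧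
    ∀ x ∈ U, ∀ u v, om (fderiv ℝ φ x u) (fderiv ℝ φ x v) = om u v

/-- the packing number `p_{k,D}(X)` -/
noncomputable def pk (D X : Set (Fin 4 → ℝ)) (k : ℕ) : ℝ≥0∞ :=
  ⨆ (l : ℝ) (_ : 0 < l) (φ : Fin k → (Fin 4 → ℝ) → Fin 4 → ℝ) (_ : ∀ i, Emb (l • D) X (φ i))
    (_ : Pairwise fun i j => Disjoint (φ i '' (l • D)) (φ j '' (l • D))),
    k * volume (l • D) / volume X

/-- the open cube `(-1,1)⁴` -/
def X : Set (Fin 4 → ℝ) := {x | ∀ i, |x i| < 1}

/-- the open cube with the closed cube `[-1/2,1/2]⁴` removed -/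
def D : Set (Fin 4 → ℝ) := X \ {x | ∀ i, |x i| ≤ 1 / 2}

open Pool.Agent.H85.Shell2

lemma X_eq : X = ball 0 1 := by
  ext x
  simp [X, pi_norm_lt_iff]

lemma D_eq : D = R (Ioo (1 / 2) 1) := by
  ext x
  rw [D, X_eq, Set.mem_sdiff, mem_ball_zero_iff, mem_ofPred]
  simp only [← Real.norm_eq_abs]
  rw [← pi_norm_le_iff_of_nonneg (by norm_num), not_le, and_comm]
  rfl

lemma vb {r : ℝ} (h : 0 < r) : volume (ball (0 : Fin 4 → ℝ) r) = .ofReal (16 * r ^ 4) := by
  rw [Real.volume_pi_ball _ h]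
  congr 1
  simp
  ring

lemma vR {s t : ℝ} (h : 0 < s) (h' : s < t) :
    volume (R (Ioo s t)) = .ofReal (16 * t ^ 4 - 16 * s ^ 4) := by
  have : R (Ioo s t) = ball 0 t \ closedBall 0 s := by
    ext x
    simp [R, and_comm]
  rw [this, measure_sdiff (closedBall_subset_ball h') measurableSet_closedBall.nullMeasurableSet
    measure_closedBall_lt_top.ne, vb (h.trans h'), Measure.addHaar_closedBall _ _ h.le,
    ENNReal.ofReal_sub _ (by positivity), ← vb h, Measure.addHaar_ball _ _ h.le]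

theorem result : IsOpen D ∧ IsConnected D ∧ Bornology.IsBounded D ∧ IsOpen X ∧ IsConnected X ∧
    volume X < ⊤ ∧ (∀ k, pk D X k ≤ 15 / 16) ∧ liminf (pk D X) atTop < 1 := by
  suffices h : ∀ k, pk D X k ≤ 15 / 16 by
    refine ⟨D_eq ▸ R_open isOpen_Ioo, D_eq ▸ R_conn (isConnected_Ioo (by norm_num)) (by grind),
      (X_eq ▸ isBounded_ball : Bornology.IsBounded X).subset sdiff_subset, X_eq ▸ isOpen_ball,
      X_eq ▸ (convex_ball _ _).isConnected (nonempty_ball.2 one_pos), X_eq ▸ measure_ball_lt_top,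
      h, (liminf_le_of_frequently_le' (.of_forall h)).trans_lt ?_⟩
    rw [ENNReal.div_lt_iff (by simp) (by simp)]
    norm_num
  intro k
  simp only [pk, iSup_le_iff]
  intro l l0 φ h hd
  have e : l • D = R (Ioo (l / 2) l) := by
    ext x
    rw [mem_smul_set_iff_inv_smul_mem₀ l0.ne', D_eq]
    simp only [R, mem_ofPred, norm_smul, norm_inv, Real.norm_of_nonneg l0.le, mem_Ioo]
    rw [lt_inv_mul_iff₀ l0, inv_mul_lt_iff₀ l0]
    grind
  rw [e] at h hd ⊢
  rw [X_eq] at h ⊢
  have c := fun i => (h i).1.of_le (m := 2) (WithTop.coe_le_coe.2 (le_top : (2 : ℕ∞) ≤ ⊤))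
  have h1 : l / 2 < 3 * l / 4 := by linarith
  have h2 : 3 * l / 4 < l := by linarith
  choose H H' o o' d cov k1 k2 k3 using fun i => key (by linarith) h1 h2 (c i) (h i).2.1
    (h i).2.2.2 (h i).2.2.1
  have s1 : R {3 * l / 4} ⊆ R (Ioo (l / 2) l) := fun x (hx : ‖x‖ = _) => ⟨hx ▸ h1, hx ▸ h2⟩
  have s2 : R (Ioo (3 * l / 4) l) ⊆ R (Ioo (l / 2) l) := fun x hx => Ioo_subset_Ioo_left h1.le hx
  have v := fun i I hI k => vol (I := I) (R_open isOpen_Ioo) (c i) (h i).2.1 (h i).2.2.2 hI k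
  have p : ∀ i j, i ≠ j → φ i '' R (Ioo (l / 2) l) ⊆ H' j := fun i j hij => by
    refine (((R_conn (isConnected_Ioo (h1.trans h2)) (by grind)).image _
      (c i).continuousOn).2.subset_or_subset (o j) (o' j) (d j) (cov j ▸
        subset_compl_iff_disjoint_right.2 ((hd hij).mono_right (image_mono s1)))).resolve_left
      fun k => ?_
    have := measure_mono (μ := volume) k
    rw [(v i _ (R_meas measurableSet_Ioo) subset_rfl).2, k2, vR (by linarith) (h1.trans h2),
      vb (by linarith), ENNReal.ofReal_le_ofReal_iff (by positivity)] at this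
    nlinarith [pow_pos l0 4]
  have q : ∀ i j, i ≠ j → Disjoint (H i) (H j) := fun i j hij => by
    have : (H i ∩ H j)ᶜ = H' i ∪ H' j := by
      refine Subset.antisymm (fun x hx => by_contra fun k => hx ⟨?_, ?_⟩) ?_
      · exact (cov i ▸ fun k' => k (.inr (p i j hij (image_mono s1 k'))) :
          x ∈ H i ∪ H' i).resolve_right fun k' => k (.inl k')
      · exact (cov j ▸ fun k' => k (.inl (p j i hij.symm (image_mono s1 k'))) :
          x ∈ H j ∪ H' j).resolve_right fun k' => k (.inr k')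
      rintro x (k | k) k'
      exacts [disjoint_left.1 (d i) k'.1 k, disjoint_left.1 (d j) k'.2 k]
    refine disjoint_iff_inter_eq_empty.2 ((isClopen_iff.1 ⟨⟨this ▸ (o' i).union (o' j)⟩,
      (o i).inter (o j)⟩).resolve_right fun k => ?_)
    have := k1 i (k ▸ mem_univ (fun _ => 1) : _ ∈ H i ∩ H j).1
    simp at this
  have w := fun i => v i _ (R_meas measurableSet_Ioo) s2
  have := measure_mono (μ := volume) (iUnion_subset fun i =>
    union_subset (k1 i) (image_subset_iff.2 fun x hx => (h i).2.2.1 (s2 hx)))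
  rw [measure_iUnion (fun i j hij => by
      have a := fun i j hij => (d j).mono_right ((image_mono s2).trans (p i j hij))
      exact disjoint_union_left.2 ⟨disjoint_union_right.2 ⟨q i j hij, a j i hij.symm⟩,
        disjoint_union_right.2 ⟨(a i j hij).symm, (hd hij).mono (image_mono s2) (image_mono s2)⟩⟩)
    fun i => (o i).measurableSet.union (w i).1] at this
  have r4 : 16 * (3 * l / 4) ^ 4 ≤ 16 * l ^ 4 := by gcongr
  have z : ∀ i, volume (H i ∪ φ i '' R (Ioo (3 * l / 4) l)) = .ofReal (16 * l ^ 4) := fun i => by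
    rw [measure_union ((d i).mono_right (k3 i)) (w i).1, k2, (w i).2, vR (by linarith) h2,
      vb (by linarith), ← ENNReal.ofReal_add (by positivity) (by linarith), add_sub_cancel]
  simp only [z, vb one_pos, tsum_fintype, Finset.sum_const, Finset.card_univ, Fintype.card_fin,
    nsmul_eq_mul] at this
  rw [← ENNReal.ofReal_natCast, ← ENNReal.ofReal_mul (by positivity),
    ENNReal.ofReal_le_ofReal_iff (by positivity)] at this
  refine ENNReal.div_le_of_le_mul ?_
  rw [vR (by linarith) (h1.trans h2), vb one_pos, ← ENNReal.ofReal_natCast,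
    ← ENNReal.ofReal_mul (by positivity), show (15 / 16 : ℝ≥0∞) = .ofReal (15 / 16) by
      rw [ENNReal.ofReal_div_of_pos (by norm_num)]; simp, ← ENNReal.ofReal_mul (by positivity)]
  exact ENNReal.ofReal_le_ofReal (by nlinarith)

end Pool.Agent.Results.MP_6b8987_gt.Shell
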